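import Mathlib
import Pool.Agent.Helper9.CY.Wrap

/-!
# Voisin's conjecture for the surfaces `w ^ m = f (x) g (y)`

Let `k` be algebraically closed of characteristic zero and let `f = f₁ / f₂`, `g = g₁ / g₂` be
nonconstant rational functions in one variable, where `f₁ f₂` and `g₁ g₂` have no multiple zeros
and the orders `-d`, `-e` of `f`, `g` at infinity are such that `d, e ≥ 0`, each divisible by `m`
or prime to `m`. Let `S` be the cyclic cover `w ^ m = f (x) g (y)` of the product of two
projective lines; its geometric genus is
`p_g = ∑_{0 < j < m} (deg f₂ + ⌈j d / m⌉ - 1) (deg g₂ + ⌈j e / m⌉ - 1)`. For `n > p_g` and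
zero-cycles `a_1, …, a_n` of degree zero on `S`, the alternating sum of the exterior products
`a_{σ(1)} × ⋯ × a_{σ(n)}` is torsion in the Chow group of zero-cycles of `S ^ n`.

See `Pool.Agent.Helper9.CY.Defs` and `Pool.Agent.Helper9.CY.Surface` for the surfaces, and
`Pool.Agent.Helper26.VC.Cycles` for zero-cycles.

Outline of the proof.
* It suffices to consider functions on the closed points of `S ^ n` which vanish on the cycles
  rationally equivalent to zero, are eigenfunctions for the action of the `m`-th roots of unity on
  each factor, and are antisymmetric in the factors with the same character. If one of the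
  characters is trivial then such a function does not depend on the corresponding point.
* `S` is the quotient of the product of the curves `z ^ m = f (x)` and `z ^ m = g (y)` by the
  `m`-th roots of unity. If the function is not zero then there are sets `B`, `B'` of positions
  such that the symmetrizations over the points of the first curve in the positions of `B` (of
  the second curve in the positions of `B'`) with equal characters are not zero, and
  `n ≤ ∑_j x_j y_j`, where `x_j`, `y_j` are the numbers of positions in `B`, `B'` with
  character `j`.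
* A symmetrization over the first curve vanishes if there are natural numbers `v_j`, not all zero,
  with `∑_j j v_j = 0` in `ℤ / m` and `∑_j v_j (r - 1 - x_j) < r` (for `deg f₂ = 0`), where `r` is
  the number of branch points: the points can be moved simultaneously along the zeros of
  polynomials in `x` depending on a parameter `u` and interpolating products of polynomials in `u`
  at the branch points, until one of them reaches a branch point.
* The remaining `x` satisfy: the sum of the `x_j` over any set of `i` characters is at most the sum
  of the `i` largest of the dimensions of the eigenspaces of the regular differentials; this uses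
  the theorem of Kemperman and Scherk on sumsets in abelian groups. The rearrangement inequality
  then gives `∑_j x_j y_j ≤ p_g`.
-/

namespace Pool.Agent.Results.MP_83b46e_ag.CyclicProducts

open VC CY Polynomial

universe u

theorem result {k : Type u} [Field k] [IsAlgClosed k] [CharZero k] (m : ℕ) [NeZero m] (hm : 2 ≤ m)
    (f₁ f₂ g₁ g₂ : k[X]) (hf : Squarefree (f₁ * f₂)) (hg : Squarefree (g₁ * g₂))
    (hf₀ : 0 < f₁.natDegree) (hg₀ : 0 < g₁.natDegree) (d e : ℕ)
    (hd : f₁.natDegree = f₂.natDegree + d) (he : g₁.natDegree = g₂.natDegree + e)
    (hd' : m ∣ d ∨ m.Coprime d) (he' : m ∣ e ∨ m.Coprime e) (n : ℕ)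
    (hn : ∑ j ∈ Finset.Ico 1 m, (f₂.natDegree + (j * d) ⌈/⌉ m - 1) *
      (g₂.natDegree + (j * e) ⌈/⌉ m - 1) < n)
    (z : Fin n → (surface m (f₁ * f₂ ^ (m - 1)) (g₁ * g₂ ^ (m - 1))
      (f₂.natDegree + d ⌈/⌉ m) (g₂.natDegree + e ⌈/⌉ m)).Cycles)
    (hz : ∀ i, (z i).sum (fun _ c => c) = 0) :
    ∃ N : ℕ, 0 < N ∧ N • ∑ σ : Equiv.Perm (Fin n), ((Equiv.Perm.sign σ : ℤˣ) : ℤ) •
      extProd (fun i => z (σ i)) ∈ ((surface m (f₁ * f₂ ^ (m - 1)) (g₁ * g₂ ^ (m - 1))
        (f₂.natDegree + d ⌈/⌉ m) (g₂.natDegree + e ⌈/⌉ m)).pow n).Rat :=
  cyclic m hm f₁ f₂ g₁ g₂ hf hg hf₀ hg₀ d e hd he hd' he' n hn z hz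

end Pool.Agent.Results.MP_83b46e_ag.CyclicProducts
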